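import Pool.Agent.N824.CS.Loc
import Pool.Agent.N824.CN.Glob

/-!
# Smoothing of coarse submersions
-/

set_option autoImplicit false
set_option maxSynthPendingDepth 3
set_option linter.unusedSectionVars false

open Set Filter Topology Metric Function MeasureTheory
open scoped Manifold ContDiff Convolution

noncomputable section

namespace Pool.Agent.N824.CS

open Pool.Agent.Y522 Pool.Agent.Y954.SH Pool.Agent.N824.CR Pool.Agent.N824.CN

variable {n : ℕ} {X : Type} [TopologicalSpace X] [ChartedSpace (E n) X]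
  {W : Type} [NormedAddCommGroup W] [NormedSpace ℝ W] [FiniteDimensional ℝ W]

/-- the family `F` is a coarse submersion at `x` at the scales of `S` -/
def CSub (n : ℕ) {X : Type} [TopologicalSpace X] [ChartedSpace (E n) X] {W : Type}
    [NormedAddCommGroup W] [NormedSpace ℝ W] (d : X → X → ℝ)
    (S : Set ℝ) (F : ℝ → X → W) (x : X) : Prop :=
  ∃ (A : E n → X) (κ ε ρ : ℝ) (H : ℝ → ℝ), A 0 = x ∧ LD n A 0 ∧ 1 ≤ κ ∧ 0 ≤ ε ∧
    CC n * (κ ^ 2 * ε) ≤ 1 ∧ 0 < ρ ∧ (∀ r, 1 ≤ H r) ∧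
    Tendsto (fun r => r * H r) (𝓝[>] 0) (𝓝 0) ∧
    (∀ p q, ‖p‖ < ρ → ‖q‖ < ρ →
      d (A p) (A q) ≤ κ * ‖p - q‖ ∧ ‖p - q‖ ≤ κ * d (A p) (A q)) ∧
    ∀ p, ‖p‖ < ρ → ∀ r ∈ S, 0 < r → r < ρ → ∀ ℓ : W →L[ℝ] ℝ, ℓ ≠ 0 →
      ∃ (c : ℝ) (u : E n), 0 < c ∧ ‖u‖ = 1 ∧
        CMu n (fun z => F r (A z)) p κ ε (H r) r u (c • ℓ)

theorem CSub.exists_cht {d : X → X → ℝ} {S : Set ℝ} {F : ℝ → X → W} {x : X}
    (h : CSub n d S F x) {Z : Set X} (hZ : Zᶜ ∈ 𝓝 x) :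
    ∃ (A : E n → X) (B : X → E n) (R κ ε : ℝ) (H : ℝ → ℝ),
      x ∈ A '' ball 0 R ∧ Disjoint (A '' closedBall 0 R) Z ∧
      IsCht n d A B R κ ∧ 0 ≤ ε ∧ C1 n * κ ^ 2 * ε ≤ 1 ∧ ε ≤ 1 / 4 ∧
      (∀ r, 1 ≤ H r) ∧
      Tendsto (fun r => r * H r) (𝓝[>] 0) (𝓝 0) ∧
      ∀ p, ‖p‖ < R → ∀ r ∈ S, 0 < r → r < R → ∀ ℓ : W →L[ℝ] ℝ, ℓ ≠ 0 →
        ∃ (c : ℝ) (u : E n), 0 < c ∧ ‖u‖ = 1 ∧
          CMu n (fun z => F r (A z)) p κ ε (H r) r u (c • ℓ) := by
  classical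
  obtain ⟨A, κ, ε, ρ, H, hA0, hA, hκ, hε0, hε1, hρ, hH1, hHl, hd, hAA⟩ := h
  obtain ⟨u, hu, hinj⟩ := hA.eventually_injOn
  have hZ' : A ⁻¹' Zᶜ ∈ 𝓝 0 := hA.continuousAt.preimage_mem_nhds (by rwa [hA0])
  obtain ⟨r1, hr1, hball⟩ := (nhds_basis_closedBall (x := (0 : E n))).mem_iff.mp
    (Filter.inter_mem (Filter.inter_mem hu hA.eventually) hZ')
  have hinj' : InjOn A (closedBall 0 r1) := hinj.mono fun z hz => (hball hz).1.1
  have hκ2 : 1 ≤ κ ^ 2 := one_le_pow₀ hκ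
  have hκε : ε ≤ κ ^ 2 * ε := by nlinarith
  have hC := C1_nonneg n
  have hκε0 : 0 ≤ κ ^ 2 * ε := by positivity
  unfold CC at hε1
  refine ⟨A, invFunOn A (closedBall 0 r1), min r1 (ρ / 2), κ, ε, H, ?_, ?_, ?_, hε0,
    by nlinarith, by nlinarith, hH1, hHl, ?_⟩
  · refine ⟨0, ?_, hA0⟩
    rw [mem_ball_zero_iff, norm_zero]
    exact lt_min hr1 (by linarith)
  · rw [disjoint_left]
    rintro _ ⟨z, hz, rfl⟩
    refine (hball (?_ : z ∈ closedBall (0 : E n) r1)).2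
    rw [mem_closedBall_zero_iff] at hz ⊢
    exact hz.trans (min_le_left _ _)
  · have hle : ∀ z : E n, ‖z‖ ≤ min r1 (ρ / 2) → z ∈ closedBall (0 : E n) r1 := fun z hz => by
      rw [mem_closedBall_zero_iff]
      exact hz.trans (min_le_left _ _)
    have hlt : ∀ z : E n, ‖z‖ ≤ min r1 (ρ / 2) → ‖z‖ < ρ := fun z hz => by
      have := hz.trans (min_le_right _ _)
      linarith
    exact {
      pos := lt_min hr1 (by linarith)
      one := hκ
      ld := fun z hz => (hball (hle z hz)).1.2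
      left := fun z hz => hinj'.leftInvOn_invFunOn (hle z hz)
      up := fun p q hp hq => (hd p q (hlt p hp) (hlt q hq)).1
      low := fun p q hp hq => (hd p q (hlt p hp) (hlt q hq)).2 }
  · intro p hp r hr h0 hrR
    refine hAA p ?_ r hr h0 ?_
    · have := hp.trans_le (min_le_right _ _)
      linarith
    · have := hrR.trans_le (min_le_right _ _)
      linarith

/-- `F` is smooth near `x` and its differential at `x` is onto -/
def SubAt (n : ℕ) {X : Type} [TopologicalSpace X] [ChartedSpace (E n) X] {W : Type}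
    [NormedAddCommGroup W] [NormedSpace ℝ W] (F : X → W) (x : X) : Prop :=
  ∃ (A : E n → X) (p : E n), A p = x ∧ LD n A p ∧ Surjective (fderiv ℝ (fun z => F (A z)) p)

/-- change of parametrization -/
theorem SubAt.change [IsManifold (𝓡 n) ∞ X] {F : X → W} {x : X}
    (hF : ContMDiffAt (𝓡 n) 𝓘(ℝ, W) ∞ F x) (h : SubAt n F x) {A : E n → X} {p : E n}
    (hAp : A p = x) (hA : LD n A p) : Surjective (fderiv ℝ (fun z => F (A z)) p) := by
  obtain ⟨A', p', hAp', hA', hs⟩ := h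
  obtain ⟨B, hB, hBA, hBl, hBr⟩ := hA.exists_inverse
  rw [hAp] at hB hBA hBr
  -- F ∘ A' = (F ∘ A) ∘ (B ∘ A') near p'
  have h1 : (fun z => F (A' z)) =ᶠ[𝓝 p'] (fun z => F (A z)) ∘ fun z => B (A' z) := by
    have h2 : Tendsto A' (𝓝 p') (𝓝 x) := by
      have h3 : Tendsto A' (𝓝 p') (𝓝 (A' p')) := hA'.continuousAt
      rwa [hAp'] at h3
    filter_upwards [h2.eventually hBr] with z hz
    show F (A' z) = F (A (B (A' z)))
    rw [hz]
  have hBA' : B (A' p') = p := by rw [hAp', hBA]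
  have hFA : ContDiffAt ℝ ∞ (fun z => F (A z)) (B (A' p')) := by
    rw [hBA']
    have h3 : ContMDiffAt (𝓡 n) 𝓘(ℝ, W) ∞ F (A p) := by rwa [hAp]
    have h4 : ContMDiffAt (𝓡 n) 𝓘(ℝ, W) ∞ (F ∘ A) p := h3.comp p hA.contMDiffAt
    exact contMDiffAt_iff_contDiffAt.1 h4
  have hBA'' : ContDiffAt ℝ ∞ (fun z => B (A' z)) p' := by
    have h3 : ContMDiffAt (𝓡 n) (𝓡 n) ∞ B (A' p') := by
      rw [hAp']
      exact hB.contMDiffAt
    have h4 : ContMDiffAt (𝓡 n) (𝓡 n) ∞ (B ∘ A') p' := h3.comp p' hA'.contMDiffAt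
    exact contMDiffAt_iff_contDiffAt.1 h4
  rw [h1.fderiv_eq, fderiv_comp p' (hFA.differentiableAt (by simp))
    (hBA''.differentiableAt (by simp)), hBA'] at hs
  intro w
  obtain ⟨v, hv⟩ := hs w
  exact ⟨_, hv⟩

/-- smoothing of coarse submersions -/
theorem globS [T2Space X] [LocallyCompactSpace X] [SecondCountableTopology X]
    [IsManifold (𝓡 n) ∞ X] (F : ℝ → X → W) (Fb : X → W) (U : Set X) (d : X → X → ℝ)
    [MeasurableSpace X] [BorelSpace X] [MeasurableSpace W] [BorelSpace W]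
    (S : Set ℝ) (hS : (0 : ℝ) ∈ closure (S ∩ Ioi 0))
    (hFm : ∀ r ∈ S, Measurable (F r))
    (hFB : ∀ r ∈ S, ∃ b : ℝ, ∀ x, ‖F r x‖ ≤ b)
    (Z : Set X) (hZ : IsClosed Z) (hZU : Z ⊆ U)
    (hU : IsOpen U) (hsm : ∀ x ∈ U, ContMDiffAt (𝓡 n) 𝓘(ℝ, W) ∞ Fb x)
    (hsub : ∀ x ∈ U, x ∉ Z → SubAt n Fb x)
    (hFeq : ∀ r ∈ S, ∀ x ∈ U, F r x = Fb x)
    (hbad : ∀ x, x ∉ U → CSub n d S F x) (hK : IsCompact Uᶜ) :
    ∃ (F' : X → W) (C : Set X), IsCompact C ∧ Disjoint C Z ∧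
      (∀ x, x ∉ C → x ∈ U ∧ F' x = Fb x) ∧ (∀ x, ContMDiffAt (𝓡 n) 𝓘(ℝ, W) ∞ F' x) ∧
      ∀ x, x ∉ Z → SubAt n F' x := by
  classical
  have hch := fun x : {x : X // x ∉ U} => (hbad x.1 x.2).exists_cht
    (hZ.isOpen_compl.mem_nhds fun h => x.2 (hZU h))
  choose A B R κ ε H hxA hAZ hcht hε0 hε1 hε4 hH1 hHl hcm using hch
  obtain ⟨t, ht⟩ := hK.elim_finite_subcover (fun x : {x : X // x ∉ U} => A x '' ball 0 (R x))
    (fun x => (hcht x).isOpen) (fun x hx => mem_iUnion.2 ⟨⟨x, hx⟩, hxA ⟨x, hx⟩⟩)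
  have hUo : IsOpen (⋃ i : t, A i '' ball 0 (R i)) := isOpen_iUnion fun i => (hcht i).isOpen
  have ht' : Uᶜ ⊆ ⋃ i : t, A i '' ball 0 (R i) := by
    intro x hx
    obtain ⟨i, hi⟩ := mem_iUnion.1 (ht hx)
    obtain ⟨hi1, hi2⟩ := mem_iUnion.1 hi
    exact mem_iUnion.2 ⟨⟨i, hi1⟩, hi2⟩
  obtain ⟨K', hK', hKK', hK'U⟩ := exists_compact_between hK hUo ht'
  obtain ⟨f, hf⟩ := SmoothPartitionOfUnity.exists_isSubordinate (𝓡 n) hK'.isClosed
    (fun i : t => A i '' ball 0 (R i)) (fun i => (hcht i).isOpen) hK'U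
  have hfam : FamG n t d F Fb (U \ Z) S (fun i => A i) (fun i => B i) (fun i => R i)
      (fun i => κ i)
      (fun i => ε i) (fun i => H i) (fun i x => f i x) :=
    { oV := hU.sdiff hZ
      smV := fun x hx => hsm x hx.1
      subV := fun x hx A p hAp hA => SubAt.change (hsm x hx.1) (hsub x hx.1 hx.2) hAp hA
      Feq := fun r hr x hx => hFeq r hr x hx.1
      cht := fun i => hcht i
      iF := fun i r hr => int_chartW (hcht i) (hFm r hr) (hFB r hr)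
      ε0 := fun i => hε0 i
      ε1 := fun i => hε1 i
      ε4 := fun i => hε4 i
      H1 := fun i => hH1 i
      Hlim := fun i => hHl i
      sm := fun i => (f i).contMDiff
      nn := fun i x => f.nonneg i x
      le := fun x => by
        rw [← finsum_eq_sum_of_fintype]
        exact f.sum_le_one x
      sup := fun i => hf i }
  have hsum : ∀ x ∈ K', ∑ i, f i x = 1 := fun x hx => by
    rw [← finsum_eq_sum_of_fintype]
    exact f.sum_eq_one hx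
  obtain ⟨C, hC⟩ : ∃ C, C = ⋃ i : t, tsupport (f i) := ⟨_, rfl⟩
  have hCc : IsCompact C := by
    rw [hC]
    refine isCompact_iUnion fun i => ?_
    refine ((isCompact_closedBall (0 : E n) (R i)).image_of_continuousOn
      (hcht i).contOn).of_isClosed_subset (isClosed_tsupport _) ?_
    exact (hf i).trans (image_mono ball_subset_closedBall)
  have hCZ : Disjoint C Z := by
    rw [hC, disjoint_iUnion_left]
    intro i
    exact (hAZ i).mono_left ((hf i).trans (image_mono ball_subset_closedBall))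
  obtain ⟨G, hG⟩ : ∃ G : ℝ → X → W, G = fun r x => Gr (F r)
    (fun i : t => A i) (fun i => B i)
    (fun i => R i) (fun i x => f i x) r x := ⟨_, rfl⟩
  have hloc : ∀ x0 ∈ C, ∀ᶠ z : ℝ × X in 𝓝[S ∩ Ioi 0] (0 : ℝ) ×ˢ 𝓝 x0,
      ContMDiffAt (𝓡 n) 𝓘(ℝ, W) ∞ (G z.1) z.2 ∧ SubAt n (G z.1) z.2 := by
    intro x0 hx0
    have hx0Z : x0 ∉ Z := fun h => disjoint_left.1 hCZ hx0 h
    obtain ⟨i1, hi1, hev⟩ := hfam.loc (x0 := x0) (by
        rw [hC] at hx0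
        exact mem_iUnion.1 hx0) (by
        by_cases h : x0 ∈ U
        · exact Or.inr ⟨h, hx0Z⟩
        · left
          filter_upwards [isOpen_interior.mem_nhds (hKK' h)] with x hx
          exact hsum x (interior_subset hx))
    have l0 : ∀ᶠ z : ℝ × X in 𝓝[S ∩ Ioi 0] (0 : ℝ) ×ˢ 𝓝 x0, z.1 ∈ S ∩ Ioi 0 := by
      have : ∀ᶠ r in 𝓝[S ∩ Ioi 0] (0 : ℝ), r ∈ S ∩ Ioi 0 := self_mem_nhdsWithin
      exact this.prod_inl _
    filter_upwards [hev, l0] with z hz hz0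
    obtain ⟨z1, z2, z3, z4⟩ := hz
    rw [hG]
    refine ⟨z3.self_of_nhds, A i1, B i1 z.2, (hcht i1).right z2,
      (hcht i1).ld _ ((hcht i1).mem z2).le, ?_⟩
    -- surjectivity
    obtain ⟨D, hD⟩ : ∃ D : E n →L[ℝ] W, D = fderiv ℝ (fun y => Gr (F z.1) (fun i : t => A i)
      (fun i => B i) (fun i => R i) (fun i x => f i x) z.1 (A i1 y)) (B i1 z.2) := ⟨_, rfl⟩
    show Surjective (fderiv ℝ (fun y => Gr (F z.1) (fun i : t => A i)
      (fun i => B i) (fun i => R i) (fun i x => f i x) z.1 (A i1 y)) (B i1 z.2))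
    rw [← hD]
    by_contra hns
    have hlt : LinearMap.range (D : E n →ₗ[ℝ] W) < ⊤ := by
      rw [lt_top_iff_ne_top]
      intro h
      exact hns (LinearMap.range_eq_top.1 h)
    obtain ⟨g, hg0, hgr⟩ := Submodule.exists_le_ker_of_lt_top _ hlt
    obtain ⟨ℓ, hℓ⟩ : ∃ ℓ : W →L[ℝ] ℝ, ∀ w, ℓ w = g w :=
      ⟨LinearMap.toContinuousLinearMap g, fun w => rfl⟩
    have hℓ0 : ℓ ≠ 0 := by
      intro h
      apply hg0
      ext w
      rw [← hℓ w, h]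
      rfl
    obtain ⟨c, u, hc, hu, hcu⟩ := hcm i1 (B i1 z.2) ((hcht i1).mem z2) z.1 hz0.1 hz0.2 z1 ℓ hℓ0
    have h5 := z4 u (c • ℓ) hu hcu
    beta_reduce at h5
    rw [← hD, smul_apply, hℓ] at h5
    have h6 : g (D u) = 0 := by
      have : D u ∈ LinearMap.range (D : E n →ₗ[ℝ] W) := ⟨u, rfl⟩
      exact LinearMap.mem_ker.1 (hgr this)
    rw [h6, smul_zero] at h5
    exact lt_irrefl _ h5
  have hne : (𝓝[S ∩ Ioi 0] (0 : ℝ)).NeBot := mem_closure_iff_nhdsWithin_neBot.1 hS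
  have hall : ∀ᶠ r in 𝓝[S ∩ Ioi 0] (0 : ℝ), ∀ x ∈ C,
      ContMDiffAt (𝓡 n) 𝓘(ℝ, W) ∞ (G r) x ∧ SubAt n (G r) x := by
    have h1 : {z : ℝ × X | ContMDiffAt (𝓡 n) 𝓘(ℝ, W) ∞ (G z.1) z.2 ∧ SubAt n (G z.1) z.2} ∈
        𝓝[S ∩ Ioi 0] (0 : ℝ) ×ˢ 𝓝ˢ C := hCc.mem_prod_nhdsSet_of_forall hloc
    obtain ⟨u, hu, v, hv, huv⟩ := Filter.mem_prod_iff.1 h1
    filter_upwards [hu] with r hr x hx
    exact huv (mk_mem_prod hr (subset_of_mem_nhdsSet hv hx))
  have hallS : ∀ᶠ r in 𝓝[S ∩ Ioi 0] (0 : ℝ), r ∈ S := by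
    filter_upwards [self_mem_nhdsWithin] with r hr
    exact hr.1
  obtain ⟨r, hr, hrS⟩ := (hall.and hallS).exists
  have hCV : ∀ x, x ∉ C → x ∈ U := by
    intro x hx
    by_contra h
    apply hx
    have h2 := hsum x (interior_subset (hKK' h))
    have h3 : ∃ i : t, f i x ≠ 0 := by
      by_contra hcon
      push Not at hcon
      simp [hcon] at h2
    obtain ⟨i, hi⟩ := h3
    rw [hC]
    exact mem_iUnion.2 ⟨i, subset_tsupport _ hi⟩
  have hoff : ∀ x, x ∉ C → G r x = Fb x := by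
    intro x hx
    have h0 : ∀ i : t, f i x = 0 := by
      intro i
      by_contra h
      apply hx
      rw [hC]
      exact mem_iUnion.2 ⟨i, subset_tsupport _ h⟩
    rw [hG]
    show Gr (F r) (fun i : t => A i) (fun i => B i)
      (fun i => R i) (fun i x => f i x) r x = Fb x
    unfold Pool.Agent.N824.CN.Gr
    rw [Fintype.sum_option]
    have e1 : Xo (fun (i : t) x => f i x) none x = 1 := by
      show 1 - ∑ i, f i x = 1
      simp [h0]
    rw [e1, one_smul]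
    show F r x + ∑ i : t, f i x • _ = Fb x
    rw [hFeq r hrS x (hCV x hx)]
    simp [h0]
  have hnear : ∀ x, x ∉ C → G r =ᶠ[𝓝 x] Fb := by
    intro x hx
    filter_upwards [hCc.isClosed.isOpen_compl.mem_nhds hx] with y hy
    exact hoff y hy
  refine ⟨G r, C, hCc, hCZ, fun x hx => ⟨hCV x hx, hoff x hx⟩, fun x => ?_, fun x hxZ => ?_⟩
  · by_cases hx : x ∈ C
    · exact (hr x hx).1
    · exact (hsm x (hCV x hx)).congr_of_eventuallyEq (hnear x hx)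
  · by_cases hx : x ∈ C
    · exact (hr x hx).2
    · obtain ⟨A', p', hAp', hA', hs⟩ := hsub x (hCV x hx) hxZ
      refine ⟨A', p', hAp', hA', ?_⟩
      have h1 : (fun z => G r (A' z)) =ᶠ[𝓝 p'] fun z => Fb (A' z) := by
        have h2 : Tendsto A' (𝓝 p') (𝓝 x) := by
          have h3 : Tendsto A' (𝓝 p') (𝓝 (A' p')) := hA'.continuousAt
          rwa [hAp'] at h3
        exact h2.eventually (hnear x hx)
      rw [h1.fderiv_eq]
      exact hs

end Pool.Agent.N824.CS
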