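import Pool.Agent.N824.CN.Loc

/-!
# The local claim for coarse submersions
-/

set_option autoImplicit false
set_option maxSynthPendingDepth 3

open Set Filter Topology Metric Function MeasureTheory
open scoped Manifold ContDiff Convolution

set_option linter.unusedSectionVars false

noncomputable section

namespace Pool.Agent.N824.CS

open Pool.Agent.Y522 Pool.Agent.Y954.SH Pool.Agent.N824.CR Pool.Agent.N824.CN

variable {n : ℕ} {X : Type} [TopologicalSpace X] [ChartedSpace (E n) X]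
  {W : Type} [NormedAddCommGroup W] [NormedSpace ℝ W] [FiniteDimensional ℝ W]

/-- coarse monotonicity of `ℓ ∘ h` in the direction `u`, near `p`, at the scale `r` -/
def CMu (n : ℕ) {W : Type} [NormedAddCommGroup W] [NormedSpace ℝ W] (h : E n → W) (p : E n)
    (κ ε H r : ℝ) (u : E n) (ℓ : W →L[ℝ] ℝ) : Prop :=
  (∀ q, ‖q - p‖ ≤ κ ^ 2 * r → |ℓ (h q) - ℓ (h p)| ≤ H * r) ∧
    ∀ q q', ‖q - p‖ ≤ κ ^ 2 * r → ‖q' - p‖ ≤ κ ^ 2 * r → ∀ t : ℝ, 0 ≤ t →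
      ‖q' - q - t • u‖ ≤ r / H → t - ε * r ≤ ℓ (h q') - ℓ (h q)

/-- the derivative at the good points -/
theorem goodG {h1 : E n → W} {p u : E n} {r H b ν δ C : ℝ} {e' : E n →L[ℝ] W}
    {ℓ : W →L[ℝ] ℝ} (hr : 0 < r) (hu : ‖u‖ = 1) (hH0 : 0 ≤ H) (hν : 0 ≤ ν)
    (hC : 0 ≤ C)
    (hs : ∀ v, ‖v‖ ≤ 1 → ‖h1 (p + r • v) - h1 p - fderiv ℝ h1 p (r • v)‖ ≤ C * r * r)
    (hd : ‖fderiv ℝ h1 p - e'‖ ≤ δ) (he : ∀ ℓ : W →L[ℝ] ℝ, ‖ℓ‖ ≤ ν * ‖ℓ.comp e'‖)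
    (hΛ : ∀ v, ‖v‖ ≤ 1 → |ℓ (h1 (p + r • v)) - ℓ (h1 p)| ≤ H * r)
    (hm : r - b ≤ ℓ (h1 (p + r • u)) - ℓ (h1 p)) (hb : b ≤ 1 / 4 * r)
    (hνδ : ν * δ ≤ 1 / 4) (hνC : ν * C * r ≤ 1 / 4) (hνH : 8 * (ν * C * (r * H)) ≤ 1) :
    1 / 2 ≤ ℓ (fderiv ℝ h1 p u) := by
  obtain ⟨D, hD⟩ : ∃ D, D = fderiv ℝ h1 p := ⟨_, rfl⟩
  rw [← hD] at hs hd ⊢
  have hδ : 0 ≤ δ := (norm_nonneg _).trans hd
  have g1 : ‖ℓ.comp D‖ ≤ H + ‖ℓ‖ * (C * r) := by
    refine ContinuousLinearMap.opNorm_le_of_unit_norm (𝕜 := ℝ) (by positivity) fun v hv => ?_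
    rw [ContinuousLinearMap.comp_apply, Real.norm_eq_abs]
    have h1' := hΛ v hv.le
    have h2 := hs v hv.le
    have h3 : |ℓ (h1 (p + r • v) - h1 p - D (r • v))| ≤ ‖ℓ‖ * (C * r * r) := by
      rw [← Real.norm_eq_abs]
      refine (ContinuousLinearMap.le_opNorm _ _).trans ?_
      gcongr
    have h4 : r * ℓ (D v) = (ℓ (h1 (p + r • v)) - ℓ (h1 p)) -
        ℓ (h1 (p + r • v) - h1 p - D (r • v)) := by
      rw [map_sub, map_sub, map_smul, map_smul, smul_eq_mul]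
      ring
    have h5 : r * |ℓ (D v)| ≤ r * (H + ‖ℓ‖ * (C * r)) := by
      have h6 : r * |ℓ (D v)| = |r * ℓ (D v)| := by rw [abs_mul, abs_of_pos hr]
      rw [h6, h4]
      refine (abs_sub _ _).trans ?_
      calc _ ≤ H * r + ‖ℓ‖ * (C * r * r) := add_le_add h1' h3
        _ = _ := by ring
    exact le_of_mul_le_mul_left h5 hr
  have g2 : ‖ℓ.comp e'‖ ≤ ‖ℓ.comp D‖ + ‖ℓ‖ * δ := by
    have h1' : ℓ.comp e' = ℓ.comp D - ℓ.comp (D - e') := by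
      rw [ContinuousLinearMap.comp_sub]
      abel
    rw [h1']
    refine (norm_sub_le _ _).trans ?_
    gcongr
    exact (ContinuousLinearMap.opNorm_comp_le _ _).trans (by gcongr)
  have hℓ : ‖ℓ‖ ≤ 2 * (H * ν) := by
    have h1' := he ℓ
    have h2 : ν * ‖ℓ.comp e'‖ ≤ ν * (H + ‖ℓ‖ * (C * r) + ‖ℓ‖ * δ) := by
      gcongr
      linarith
    have h3 : ν * (H + ‖ℓ‖ * (C * r) + ‖ℓ‖ * δ) = H * ν + ‖ℓ‖ * (ν * C * r) + ‖ℓ‖ * (ν * δ) := by
      ring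
    have h4 : ‖ℓ‖ * (ν * C * r) ≤ ‖ℓ‖ * (1 / 4) := by gcongr
    have h5 : ‖ℓ‖ * (ν * δ) ≤ ‖ℓ‖ * (1 / 4) := by gcongr
    linarith
  have a3 : r * ℓ (D u) = (ℓ (h1 (p + r • u)) - ℓ (h1 p)) -
      ℓ (h1 (p + r • u) - h1 p - D (r • u)) := by
    rw [map_sub, map_sub, map_smul, map_smul, smul_eq_mul]
    ring
  have a4 : |ℓ (h1 (p + r • u) - h1 p - D (r • u))| ≤ 1 / 4 * r := by
    rw [← Real.norm_eq_abs]
    refine (ContinuousLinearMap.le_opNorm _ _).trans ?_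
    have h2 := hs u hu.le
    calc ‖ℓ‖ * _ ≤ 2 * (H * ν) * (C * r * r) := by gcongr
      _ = (8 * (ν * C * (r * H))) / 4 * r := by ring
      _ ≤ 1 / 4 * r := by gcongr
  have a6 := (abs_le.1 a4).2
  have a5 : r * (1 / 2) ≤ r * ℓ (D u) := by linarith
  exact le_of_mul_le_mul_left a5 hr

/-- a surjective map onto a finite-dimensional space -/
theorem exists_nu {e : E n →L[ℝ] W} (he : Surjective e) :
    ∃ ν : ℝ, 0 ≤ ν ∧ ∀ ℓ : W →L[ℝ] ℝ, ‖ℓ‖ ≤ ν * ‖ℓ.comp e‖ := by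
  obtain ⟨s, hs⟩ : ∃ s : W →L[ℝ] E n, e.comp s = ContinuousLinearMap.id ℝ W := by
    obtain ⟨s, hs⟩ := (e : E n →ₗ[ℝ] W).exists_rightInverse_of_surjective
      (LinearMap.range_eq_top.2 he)
    refine ⟨LinearMap.toContinuousLinearMap s, ?_⟩
    ext w
    exact congrArg (fun L : W →ₗ[ℝ] W => L w) hs
  refine ⟨‖s‖, norm_nonneg _, fun ℓ => ?_⟩
  have h1 : ℓ = (ℓ.comp e).comp s := by
    rw [ContinuousLinearMap.comp_assoc, hs, ContinuousLinearMap.comp_id]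
  calc ‖ℓ‖ = ‖(ℓ.comp e).comp s‖ := by rw [← h1]
    _ ≤ ‖ℓ.comp e‖ * ‖s‖ := ContinuousLinearMap.opNorm_comp_le _ _
    _ = ‖s‖ * ‖ℓ.comp e‖ := mul_comm _ _

/-- data of a finite family of charts -/
structure FamG (n : ℕ) {X : Type} [TopologicalSpace X] [ChartedSpace (E n) X]
    {W : Type} [NormedAddCommGroup W] [NormedSpace ℝ W]
    (ι : Type)
    [Fintype ι] (d : X → X → ℝ) (F : ℝ → X → W) (Fb : X → W) (V : Set X) (S : Set ℝ)
    (A : ι → E n → X) (B : ι → X → E n)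
    (R κ ε : ι → ℝ) (H : ι → ℝ → ℝ) (χ : ι → X → ℝ) : Prop where
  oV : IsOpen V
  smV : ∀ x ∈ V, ContMDiffAt (𝓡 n) 𝓘(ℝ, W) ∞ Fb x
  subV : ∀ x ∈ V, ∀ (A : E n → X) (p : E n), A p = x → LD n A p →
    Surjective (fderiv ℝ (fun z => Fb (A z)) p)
  Feq : ∀ r ∈ S, ∀ x ∈ V, F r x = Fb x
  cht : ∀ i, IsCht n d (A i) (B i) (R i) (κ i)
  iF : ∀ i, ∀ r ∈ S, IntegrableOn (fun z => F r (A i z)) (closedBall 0 (R i))
  ε0 : ∀ i, 0 ≤ ε i
  ε1 : ∀ i, C1 n * κ i ^ 2 * ε i ≤ 1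
  ε4 : ∀ i, ε i ≤ 1 / 4
  H1 : ∀ i r, 1 ≤ H i r
  Hlim : ∀ i, Tendsto (fun r => r * H i r) (𝓝[>] 0) (𝓝 0)
  sm : ∀ i, ContMDiff (𝓡 n) 𝓘(ℝ, ℝ) ∞ (χ i)
  nn : ∀ i x, 0 ≤ χ i x
  le : ∀ x, ∑ i, χ i x ≤ 1
  sup : ∀ i, tsupport (χ i) ⊆ A i '' ball 0 (R i)

section

variable {ι : Type} [Fintype ι] {d : X → X → ℝ}
  {F : ℝ → X → W} {Fb : X → W} {V : Set X}
  {S : Set ℝ} {A : ι → E n → X}
  {B : ι → X → E n} {R κ ε : ι → ℝ} {H : ι → ℝ → ℝ} {χ : ι → X → ℝ}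

theorem FamG.Xo_smooth (hf : FamG n ι d F Fb V S A B R κ ε H χ) (o : Option ι) :
    ContMDiff (𝓡 n) 𝓘(ℝ, ℝ) ∞ (Xo χ o) := by
  cases o with
  | some i => exact hf.sm i
  | none =>
    have h1 : ContMDiff (𝓡 n) 𝓘(ℝ, ℝ) ∞ (fun x => ∑ i, χ i x) :=
      contMDiff_finsetSum fun i _ => hf.sm i
    exact contMDiff_const.sub h1

theorem FamG.Xo_contDiffAt (hf : FamG n ι d F Fb V S A B R κ ε H χ) (o : Option ι) {i : ι}
    {z : E n} (hz : ‖z‖ ≤ R i) : ContDiffAt ℝ ∞ (fun y => Xo χ o (A i y)) z := by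
  have h1 := ((hf.cht i).ld z hz).contMDiffAt
  have h2 : ContMDiffAt (𝓡 n) 𝓘(ℝ, ℝ) ∞ (Xo χ o ∘ A i) z :=
    ((hf.Xo_smooth o).contMDiffAt).comp z h1
  exact contMDiffAt_iff_contDiffAt.1 h2

theorem FamG.Xo_nn (hf : FamG n ι d F Fb V S A B R κ ε H χ) (o : Option ι) (x : X) :
    0 ≤ Xo χ o x := by
  cases o with
  | some i => exact hf.nn i x
  | none => exact sub_nonneg.2 (hf.le x)

/-- the local claim -/
theorem FamG.loc (hf : FamG n ι d F Fb V S A B R κ ε H χ) {x0 : X}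
    (hx0 : ∃ i, x0 ∈ tsupport (χ i))
    (hcase : (∀ᶠ x in 𝓝 x0, ∑ i, χ i x = 1) ∨ x0 ∈ V) :
    ∃ i1, x0 ∈ A i1 '' ball 0 (R i1) ∧ ∀ᶠ z : ℝ × X in 𝓝[S ∩ Ioi 0] (0 : ℝ) ×ˢ 𝓝 x0,
      z.1 < R i1 ∧ z.2 ∈ A i1 '' ball 0 (R i1) ∧
      (∀ᶠ x in 𝓝 z.2, ContMDiffAt (𝓡 n) 𝓘(ℝ, W) ∞ (Gr (F z.1) A B R χ z.1) x) ∧
      ∀ (u : E n) (ℓ : W →L[ℝ] ℝ), ‖u‖ = 1 →
        CMu n (fun y => F z.1 (A i1 y)) (B i1 z.2) (κ i1) (ε i1) (H i1 z.1) z.1 u ℓ →
        0 < ℓ (fderiv ℝ (fun y => Gr (F z.1) A B R χ z.1 (A i1 y)) (B i1 z.2) u) := by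
  classical
  obtain ⟨I, hI⟩ : ∃ I : Finset ι, ∀ i, i ∈ I ↔ x0 ∈ tsupport (χ i) :=
    ⟨Finset.univ.filter fun i => x0 ∈ tsupport (χ i), fun i => by simp⟩
  have hIne : I.Nonempty := by
    obtain ⟨i, hi⟩ := hx0
    exact ⟨i, (hI i).2 hi⟩
  obtain ⟨i1, hi1, hmax⟩ := Finset.exists_max_image I (fun i => κ i) hIne
  obtain ⟨t, ht, hsum⟩ := exists_t A B R (χ := χ) F I V hI hcase
  have hW : ∀ i ∈ I, x0 ∈ A i '' ball 0 (R i) := fun i hi => hf.sup i ((hI i).1 hi)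
  have hW1 := hW i1 hi1
  have hK0 := C1_nonneg n
  -- transitions from the reference chart
  have htr : ∀ i : ι, ∃ ρ : ℝ, 0 < ρ ∧ (i ∈ I → ∀ p, ‖p - B i1 x0‖ < ρ → ‖p‖ < R i1 ∧
      A i1 p ∈ A i '' ball 0 (R i) ∧
        LD n (fun z => B i (A i1 z)) p ∧
        ‖fderiv ℝ (fun z => B i (A i1 z)) p‖ ≤ κ i1 * κ i) := by
    intro i
    by_cases hi : i ∈ I
    · obtain ⟨ρ, h1, h2, h3⟩ := (hf.cht i1).trans (hf.cht i) hW1 (hW i hi) one_pos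
      refine ⟨ρ, h1, fun _ p hp => ?_⟩
      obtain ⟨b1, b2, b3, b4, b5⟩ := h2 p hp
      exact ⟨b1, b2, b3, b5⟩
    · exact ⟨1, one_pos, fun h => absurd h hi⟩
  choose ρ hρ0 hρ using htr
  -- transitions to the reference chart
  have htr' : ∀ i : ι, ∃ ρ C : ℝ, 0 < ρ ∧ 0 ≤ C ∧ (i ∈ I → (∀ p, ‖p - B i x0‖ < ρ → ‖p‖ < R i ∧
      A i p ∈ A i1 '' ball 0 (R i1) ∧
        LD n (fun z => B i1 (A i z)) p) ∧
      (∀ p q, ‖p - B i x0‖ < ρ → ‖q - B i x0‖ < ρ →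
        ‖B i1 (A i q) - B i1 (A i p)‖ ≤ κ i * κ i1 * ‖q - p‖) ∧
      ∀ p r, (∀ q, ‖q - p‖ ≤ r → ‖q - B i x0‖ < ρ) →
      ∀ q q', ‖q - p‖ ≤ r → ‖q' - p‖ ≤ r →
        ‖B i1 (A i q') - B i1 (A i q) - fderiv ℝ (fun z => B i1 (A i z)) p (q' - q)‖ ≤
          C * r * ‖q' - q‖) := by
    intro i
    by_cases hi : i ∈ I
    · obtain ⟨ρ, h1, h2, h3⟩ := (hf.cht i).trans (hf.cht i1) (hW i hi) hW1 one_pos
      have h0 : ‖B i x0 - B i x0‖ < ρ := by rwa [sub_self, norm_zero]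
      obtain ⟨ρq, C, h4, h5, h6⟩ := quad_ball (h2 _ h0).2.2.1.contDiffAt
      refine ⟨min ρ ρq, C, lt_min h1 h4, h5, fun _ => ⟨fun p hp => ?_, fun p q hp hq => ?_,
        fun p r hpr q q' hq hq' => ?_⟩⟩
      · obtain ⟨b1, b2, b3, -, -⟩ := h2 p (hp.trans_le (min_le_left _ _))
        exact ⟨b1, b2, b3⟩
      · exact (h3 p q (hp.trans_le (min_le_left _ _)) (hq.trans_le (min_le_left _ _))).2
      · exact h6 p r (fun q hq => (hpr q hq).trans_le (min_le_right _ _)) q q' hq hq'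
    · exact ⟨1, 0, one_pos, le_rfl, fun h => absurd h hi⟩
  choose ρ' Cq hρ'0 hCq hρ' using htr'
  -- the good case
  have hgs : x0 ∈ V → ContDiffAt ℝ ∞ (fun w => Fb (A i1 w)) (B i1 x0) := by
    intro h
    have h3 : ContMDiffAt (𝓡 n) 𝓘(ℝ, W) ∞ Fb (A i1 (B i1 x0)) := by
      rw [(hf.cht i1).right hW1]
      exact hf.smV x0 h
    have h4 : ContMDiffAt (𝓡 n) 𝓘(ℝ, W) ∞ (Fb ∘ A i1) (B i1 x0) :=
      h3.comp _ ((hf.cht i1).ld _ ((hf.cht i1).mem hW1).le).contMDiffAt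
    exact contMDiffAt_iff_contDiffAt.1 h4
  have hnone : ∃ (ρn ν δ C : ℝ) (e : E n →L[ℝ] W), 0 < ρn ∧ 0 ≤ ν ∧ 0 ≤ δ ∧ 0 ≤ C ∧
      ν * δ ≤ 1 / 4 ∧ (x0 ∈ V →
      (∀ ℓ : W →L[ℝ] ℝ, ‖ℓ‖ ≤ ν * ‖ℓ.comp e‖) ∧
      (∀ p, ‖p - B i1 x0‖ < ρn → ‖fderiv ℝ (fun w => Fb (A i1 w)) p - e‖ ≤ δ) ∧
      (∀ p, ‖p - B i1 x0‖ < ρn → A i1 p ∈ V) ∧
      ∀ p r, (∀ q, ‖q - p‖ ≤ r → ‖q - B i1 x0‖ < ρn) →
      ∀ q, ‖q - p‖ ≤ r →
        ‖Fb (A i1 q) - Fb (A i1 p) - fderiv ℝ (fun w => Fb (A i1 w)) p (q - p)‖ ≤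
          C * r * ‖q - p‖) := by
    by_cases h : x0 ∈ V
    · have h2 := hgs h
      have hsub := hf.subV x0 h (A i1) (B i1 x0) ((hf.cht i1).right hW1)
        ((hf.cht i1).ld _ ((hf.cht i1).mem hW1).le)
      obtain ⟨ν, hν0, hν⟩ := exists_nu hsub
      have hδ : 0 < 1 / (4 * (ν + 1)) := by positivity
      obtain ⟨ρn, C, a1, a5, a2, a6⟩ := quad_ballW h2 hδ
      have hAV : A i1 ⁻¹' V ∈ 𝓝 (B i1 x0) := by
        refine ((hf.cht i1).ld _ ((hf.cht i1).mem hW1).le).continuousAt.preimage_mem_nhds ?_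
        rw [(hf.cht i1).right hW1]
        exact hf.oV.mem_nhds h
      obtain ⟨ρv, a7, a8⟩ := Metric.mem_nhds_iff.1 hAV
      refine ⟨min ρn ρv, ν, 1 / (4 * (ν + 1)), C, _, lt_min a1 a7, hν0,
        hδ.le, a5, ?_, fun _ => ⟨hν, fun p hp =>
          a2 p (hp.trans_le (min_le_left _ _)),
        fun p hp => a8 (by
          rw [mem_ball, dist_eq_norm]
          exact hp.trans_le (min_le_right _ _)),
        fun p r hpr q hq =>
          a6 p r (fun q hq => (hpr q hq).trans_le (min_le_left _ _)) q hq⟩⟩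
      rw [mul_one_div, div_le_iff₀ (by positivity)]
      linarith
    · exact ⟨1, 0, 0, 0, 0, one_pos, le_rfl, le_rfl, le_rfl,
        by norm_num, fun h' => absurd h' h⟩
  obtain ⟨ρn, ν, δ, Cn, e, hρn0, hν0, hδ0, hCn0, hνδ, hρn⟩ := hnone
  -- the bound of the derivatives of the weights
  obtain ⟨D, hD⟩ : ∃ D : ℝ, D = ∑ o : Option ι,
      (‖fderiv ℝ (fun y => Xo χ o (A i1 y)) (B i1 x0)‖ + 1) := ⟨_, rfl⟩
  have hD0 : 0 ≤ D := by rw [hD]; positivity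
  have hDe : ∀ᶠ p in 𝓝 (B i1 x0), ∀ o : Option ι,
      ‖fderiv ℝ (fun y => Xo χ o (A i1 y)) p‖ ≤ D := by
    refine Filter.eventually_all.2 fun o => ?_
    have h1 := hf.Xo_contDiffAt o (i := i1) ((hf.cht i1).mem hW1).le
    have h2 : ContinuousAt (fderiv ℝ (fun y => Xo χ o (A i1 y))) (B i1 x0) :=
      (h1.fderiv_right (m := 0) (by simp)).continuousAt
    have h3 : ‖fderiv ℝ (fun y => Xo χ o (A i1 y)) (B i1 x0)‖ <
        ‖fderiv ℝ (fun y => Xo χ o (A i1 y)) (B i1 x0)‖ + 1 := by linarith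
    filter_upwards [h2.norm.eventually_lt_const h3] with p hp
    refine hp.le.trans ?_
    rw [hD]
    exact Finset.single_le_sum
      (f := fun o => ‖fderiv ℝ (fun y => Xo χ o (A i1 y)) (B i1 x0)‖ + 1)
      (fun o _ => by positivity) (Finset.mem_univ o)
  -- limits
  obtain ⟨l, hl⟩ : ∃ l : Filter (ℝ × X), l = 𝓝[S ∩ Ioi 0] (0 : ℝ) ×ˢ 𝓝 x0 := ⟨_, rfl⟩
  rw [← hl]
  have l1 : Tendsto (fun z : ℝ × X => z.1) l (𝓝 0) := by
    rw [hl]
    exact tendsto_fst.mono_right nhdsWithin_le_nhds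
  have l1' : Tendsto (fun z : ℝ × X => z.1) l (𝓝[>] 0) := by
    rw [hl]
    exact tendsto_fst.mono_right (nhdsWithin_mono _ inter_subset_right)
  have l0 : ∀ᶠ z : ℝ × X in l, z.1 ∈ S ∩ Ioi 0 := by
    rw [hl]
    have : ∀ᶠ r in 𝓝[S ∩ Ioi 0] (0 : ℝ), r ∈ S ∩ Ioi 0 := self_mem_nhdsWithin
    exact this.prod_inl _
  have lH : Tendsto (fun z : ℝ × X => z.1 * H i1 z.1) l (𝓝 0) := (hf.Hlim i1).comp l1'
  have l2 : Tendsto (fun z : ℝ × X => z.2) l (𝓝 x0) := by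
    rw [hl]
    exact tendsto_snd
  have lB : ∀ i ∈ I, Tendsto (fun z : ℝ × X => B i z.2) l (𝓝 (B i x0)) := fun i hi =>
    ((hf.cht i).ldB (hW i hi)).continuousAt.tendsto.comp l2
  have q1 : ∀ᶠ z in l, ∀ i ∈ I, ‖B i1 z.2 - B i1 x0‖ < ρ i := by
    refine (Finset.eventually_all I).2 fun i _ => ?_
    have h1 : Tendsto (fun z : ℝ × X => ‖B i1 z.2 - B i1 x0‖) l
        (𝓝 (‖B i1 x0 - B i1 x0‖)) := ((lB i1 hi1).sub_const _).norm
    rw [sub_self, norm_zero] at h1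
    exact h1.eventually_lt_const (hρ0 i)
  have q1' : ∀ᶠ z in l, ∀ i ∈ I, ‖B i z.2 - B i x0‖ + z.1 < ρ' i := by
    refine (Finset.eventually_all I).2 fun i hi => ?_
    have h1 : Tendsto (fun z : ℝ × X => ‖B i z.2 - B i x0‖ + z.1) l
        (𝓝 (‖B i x0 - B i x0‖ + 0)) :=
      (((lB i hi).sub_const _).norm).add l1
    rw [sub_self, norm_zero, add_zero] at h1
    exact h1.eventually_lt_const (hρ'0 i)
  have q2 : ∀ᶠ z in l, ∀ i ∈ I, ‖B i z.2‖ + z.1 < R i := by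
    refine (Finset.eventually_all I).2 fun i hi => ?_
    have h1 : Tendsto (fun z : ℝ × X => ‖B i z.2‖ + z.1) l (𝓝 (‖B i x0‖ + 0)) :=
      ((lB i hi).norm).add l1
    rw [add_zero] at h1
    exact h1.eventually_lt_const ((hf.cht i).mem (hW i hi))
  have q3 : ∀ᶠ z in l, ∀ i ∈ I, z.2 ∈ A i '' ball 0 (R i) := by
    refine (Finset.eventually_all I).2 fun i hi => ?_
    exact l2.eventually ((hf.cht i).isOpen.mem_nhds (hW i hi))
  have small : ∀ (c b : ℝ) (f : ℝ × X → ℝ), Tendsto f l (𝓝 0) → 0 < b →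
      ∀ᶠ z in l, c * f z < b := by
    intro c b f hf0 hb
    have h1 : Tendsto (fun z : ℝ × X => c * f z) l (𝓝 (c * 0)) := hf0.const_mul _
    rw [mul_zero] at h1
    exact h1.eventually_lt_const hb
  have q4 := small (t.card * D) (1 / 16) _ lH (by norm_num)
  have q4' : ∀ᶠ z in l, ∀ i ∈ I, (2 * Cq i) * (z.1 * H i1 z.1) < 1 :=
    (Finset.eventually_all I).2 fun i hi => small (2 * Cq i) 1 _ lH one_pos
  have q4a := small (ν * Cn) (1 / 4) _ l1 (by norm_num)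
  have q4b := small (8 * (ν * Cn)) 1 _ lH (by norm_num)
  have q5 := l2.eventually hsum.eventually_nhds
  have q6 := (lB i1 hi1).eventually hDe
  have q7 : ∀ᶠ z in l, ‖B i1 z.2 - B i1 x0‖ + z.1 < ρn := by
    have h1 : Tendsto (fun z : ℝ × X => ‖B i1 z.2 - B i1 x0‖ + z.1) l
        (𝓝 (‖B i1 x0 - B i1 x0‖ + 0)) :=
      (((lB i1 hi1).sub_const _).norm).add l1
    rw [sub_self, norm_zero, add_zero] at h1
    exact h1.eventually_lt_const hρn0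
  have q8 : ∀ᶠ z in l, x0 ∈ V → ∀ᶠ y in 𝓝 z.2, y ∈ V := by
    by_cases h : x0 ∈ V
    · filter_upwards [l2.eventually (hf.oV.eventually_mem h).eventually_nhds] with z hz _
      exact hz
    · exact Eventually.of_forall fun z h' => absurd h' h
  have q9 : ∀ᶠ z in l, z.1 < R i1 := l1.eventually_lt_const (hf.cht i1).pos
  refine ⟨i1, hW1, ?_⟩
  filter_upwards [l0, q1, q1', q2, q3, q4, q4', q4a, q4b, q5, q6, q7, q8,
    q9] with z z0' z1 z1' z2 z3 z4 z4' z4a z4b z5 z6 z7 z8 z9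
  obtain ⟨r, x⟩ := z
  simp only at z0' z1 z1' z2 z3 z4 z4' z4a z4b z5 z6 z7 z8 z9 ⊢
  obtain ⟨zS, z0⟩ := z0'
  replace z0 : 0 < r := z0
  have hx1 := z3 i1 hi1
  obtain ⟨p, hp⟩ : ∃ p, p = B i1 x := ⟨_, rfl⟩
  have hAp : A i1 p = x := by rw [hp]; exact (hf.cht i1).right hx1
  have hpR : ‖p‖ < R i1 := by rw [hp]; exact (hf.cht i1).mem hx1
  rw [← hp] at z1 z6 z7
  have hAc : ContinuousAt (A i1) p := ((hf.cht i1).ld p hpR.le).continuousAt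
  have hκ1 := (hf.cht i1).one
  obtain ⟨Hr, hHr⟩ : ∃ Hr, Hr = H i1 r := ⟨_, rfl⟩
  have hH1 : 1 ≤ Hr := by rw [hHr]; exact hf.H1 i1 r
  rw [← hHr] at z4 z4' z4b ⊢
  have hκ2 : 1 ≤ κ i1 ^ 2 := one_le_pow₀ hκ1
  have hκr : r ≤ κ i1 ^ 2 * r := by nlinarith
  obtain ⟨G, hG⟩ : ∃ G : X → W, G = F r := ⟨_, rfl⟩
  have hGe : ∀ y, F r y = G y := fun y => by rw [hG]
  -- geometry of the patches
  have hgeo : ∀ i ∈ I, (‖p‖ < R i1 ∧ A i1 p ∈ A i '' ball 0 (R i) ∧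
        LD n (fun z => B i (A i1 z)) p ∧
        ‖fderiv ℝ (fun z => B i (A i1 z)) p‖ ≤ κ i1 * κ i) ∧
      (B i (A i1 p) = B i x) ∧
      (∀ s, ‖s - B i (A i1 p)‖ ≤ r → ‖s - B i x0‖ < ρ' i) ∧
      (∀ s, ‖s - B i (A i1 p)‖ ≤ r →
        ‖B i1 (A i s) - B i1 (A i (B i (A i1 p)))‖ ≤ κ i1 ^ 2 * ‖s - B i (A i1 p)‖) ∧
      (B i1 (A i (B i (A i1 p))) = p) ∧
      (∀ s, ‖s - B i (A i1 p)‖ ≤ r → G (A i1 (B i1 (A i s))) = G (A i s)) ∧
      κ i1 * κ i ≤ κ i1 ^ 2 := by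
    intro i hi
    have hr1 := hρ i hi
    obtain ⟨hs1, hs2, hs3⟩ := hρ' i hi
    have hκi : κ i ≤ κ i1 := hmax i hi
    have hκi1 := (hf.cht i).one
    have hκκ : κ i * κ i1 ≤ κ i1 ^ 2 := by nlinarith
    have hbx : B i (A i1 p) = B i x := by rw [hAp]
    obtain ⟨b1, b2, b3, b4⟩ := hr1 p (z1 i hi)
    have hsρ : ∀ s, ‖s - B i (A i1 p)‖ ≤ r → ‖s - B i x0‖ < ρ' i := by
      intro s hs
      rw [hbx] at hs
      calc ‖s - B i x0‖ = ‖(s - B i x) + (B i x - B i x0)‖ := by congr 1; abel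
        _ ≤ ‖s - B i x‖ + ‖B i x - B i x0‖ := norm_add_le _ _
        _ < ρ' i := by linarith [z1' i hi]
    have hs0 : ‖B i (A i1 p) - B i x0‖ < ρ' i := hsρ _ (by simpa using z0.le)
    refine ⟨⟨b1, b2, b3, b4⟩, hbx, hsρ, fun s hs => ?_, ?_, fun s hs => ?_, by linarith⟩
    · refine (hs2 _ s hs0 (hsρ s hs)).trans ?_
      gcongr
    · rw [(hf.cht i).right b2, (hf.cht i1).left p hpR.le]
    · rw [(hf.cht i1).right (hs1 s (hsρ s hs)).2.1]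
  -- the lower estimates for the patches
  have hest : ∀ u : E n, ‖u‖ = 1 → ∀ ℓ : W →L[ℝ] ℝ,
      (∀ q q', ‖q - p‖ ≤ κ i1 ^ 2 * r → ‖q' - p‖ ≤ κ i1 ^ 2 * r → ∀ t : ℝ, 0 ≤ t →
        ‖q' - q - t • u‖ ≤ r / Hr → t - ε i1 * r ≤ ℓ (G (A i1 q')) - ℓ (G (A i1 q))) →
      ∀ i ∈ I,
      1 / 2 ≤ ℓ (fderiv ℝ (fun y => Ml n (fun w => G (A i w)) (R i) r (B i (A i1 y))) p u) := by
    intro u hu ℓ hℓ2 i hi
    have hr1 := hρ i hi
    obtain ⟨hs1, hs2, hs3⟩ := hρ' i hi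
    obtain ⟨⟨b1, b2, b3, b4⟩, hbx, hsρ, hlip, hback, hGG, hκκ⟩ := hgeo i hi
    have hs0 : ‖B i (A i1 p) - B i x0‖ < ρ' i := hsρ _ (by simpa using z0.le)
    obtain ⟨c1, c2, c3⟩ := hs1 _ hs0
    -- the composition of the transitions
    have hid : (fderiv ℝ (fun z => B i1 (A i z)) (B i (A i1 p)))
        (fderiv ℝ (fun z => B i (A i1 z)) p u) = u := by
      have d1 : HasFDerivAt (fun z => B i (A i1 z)) (fderiv ℝ (fun z => B i (A i1 z)) p) p :=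
        (b3.contDiffAt.differentiableAt (by simp)).hasFDerivAt
      have d2 : HasFDerivAt (fun z => B i1 (A i z))
          (fderiv ℝ (fun z => B i1 (A i z)) (B i (A i1 p))) (B i (A i1 p)) :=
        (c3.contDiffAt.differentiableAt (by simp)).hasFDerivAt
      have d3 := HasFDerivAt.comp p d2 d1
      have d4 : HasFDerivAt ((fun z => B i1 (A i z)) ∘ fun z => B i (A i1 z))
          (ContinuousLinearMap.id ℝ (E n)) p := by
        refine (hasFDerivAt_id p).congr_of_eventuallyEq ?_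
        have w1 : ∀ᶠ y : E n in 𝓝 p, ‖y‖ < R i1 :=
          (isOpen_lt continuous_norm continuous_const).mem_nhds hpR
        have w2 : ∀ᶠ y in 𝓝 p, ‖y - B i1 x0‖ < ρ i := by
          have : Continuous fun q : E n => ‖q - B i1 x0‖ := by fun_prop
          exact (isOpen_lt this continuous_const).mem_nhds (z1 i hi)
        filter_upwards [w1, w2] with y y1 y2
        show B i1 (A i (B i (A i1 y))) = y
        rw [(hf.cht i).right (hr1 y y2).2.1, (hf.cht i1).left y y1.le]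
      have d5 := d3.unique d4
      have d6 := congrArg (fun L : E n →L[ℝ] E n => L u) d5
      simpa using d6
    obtain ⟨w, hw⟩ : ∃ w, w = fderiv ℝ (fun z => B i (A i1 z)) p u := ⟨_, rfl⟩
    rw [← hw] at hid
    have hw0 : w ≠ 0 := by
      intro h
      rw [h, map_zero] at hid
      rw [← hid, norm_zero] at hu
      exact zero_ne_one hu
    have hwn : ‖w‖ ≤ κ i1 ^ 2 := by
      rw [hw]
      refine (ContinuousLinearMap.le_opNorm _ _).trans ?_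
      rw [hu, mul_one]
      exact b4.trans hκκ
    have hT : ∀ s s', ‖s - B i (A i1 p)‖ ≤ r → ‖s' - B i (A i1 p)‖ ≤ r →
        ‖B i1 (A i s') - B i1 (A i s) -
          fderiv ℝ (fun z => B i1 (A i z)) (B i (A i1 p)) (s' - s)‖ ≤ r / Hr := by
      intro s s' hs hs'
      refine (hs3 (B i (A i1 p)) r hsρ s s' hs hs').trans ?_
      have h8 : ‖s' - s‖ ≤ 2 * r := by
        calc ‖s' - s‖ = ‖(s' - B i (A i1 p)) - (s - B i (A i1 p))‖ := by congr 1; abel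
          _ ≤ ‖s' - B i (A i1 p)‖ + ‖s - B i (A i1 p)‖ := norm_sub_le _ _
          _ ≤ 2 * r := by linarith
      rw [le_div_iff₀ (by linarith)]
      have hC := hCq i
      calc Cq i * r * ‖s' - s‖ * Hr ≤ Cq i * r * (2 * r) * Hr := by gcongr
        _ = ((2 * Cq i) * (r * Hr)) * r := by ring
        _ ≤ 1 * r := by
            have := (z4' i hi).le
            gcongr
        _ = r := one_mul r
    exact estP (n := n) (h1 := fun w => G (A i1 w)) (h2 := fun w => G (A i w))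
      (φ := fun y => B i (A i1 y)) (ψ := fun y => B i1 (A i y)) (p := p) (u := u) (w := w)
      (r := r) (κ := κ i1) (ε := ε i1) (H := Hr) (R2 := R i) (ℓ := ℓ)
      (T := fderiv ℝ (fun z => B i1 (A i z)) (B i (A i1 p))) z0 hback hGG hlip
      hT hw hid hw0 hwn hℓ2 (by rw [hG]; exact hf.iF i r zS) (by
        show ‖B i (A i1 p)‖ + r ≤ R i
        rw [hbx]
        exact (z2 i hi).le)
      (b3.contDiffAt.differentiableAt (by simp)) (hf.ε0 i1) (hf.ε1 i1)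
  -- the upper estimates for the patches
  have hestU : ∀ u : E n, ‖u‖ = 1 → ∀ (ℓ : W →L[ℝ] ℝ) (b : ℝ),
      (∀ q, ‖q - p‖ ≤ κ i1 ^ 2 * r → |ℓ (G (A i1 q) - G (A i1 p))| ≤ b) → ∀ i ∈ I,
      |ℓ (fderiv ℝ (fun y => Ml n (fun w => G (A i w)) (R i) r (B i (A i1 y))) p u)| ≤
        κ i1 ^ 2 * C1 n * (b / r) ∧
      |ℓ (Ml n (fun w => G (A i w)) (R i) r (B i (A i1 p)) - G x)| ≤ b := by
    intro u hu ℓ b hb i hi
    obtain ⟨⟨b1, b2, b3, b4⟩, hbx, hsρ, hlip, hback, hGG, hκκ⟩ := hgeo i hi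
    have key := estU (n := n) (h1 := fun w => G (A i1 w)) (h2 := fun w => G (A i w))
      (φ := fun y => B i (A i1 y)) (ψ := fun y => B i1 (A i y)) (p := p) (u := u)
      (r := r) (κ := κ i1) (e := b) (R2 := R i) (ℓ := ℓ) z0 hback hGG hlip
      (by
        refine (ContinuousLinearMap.le_opNorm _ _).trans ?_
        rw [hu, mul_one]
        exact b4.trans hκκ) hb (by rw [hG]; exact hf.iF i r zS) (by
        show ‖B i (A i1 p)‖ + r ≤ R i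
        rw [hbx]
        exact (z2 i hi).le)
      (b3.contDiffAt.differentiableAt (by simp))
    refine ⟨key.1, ?_⟩
    have k2 : |ℓ (Ml n (fun w => G (A i w)) (R i) r (B i (A i1 p)) -
      G (A i (B i (A i1 p))))| ≤ b := key.2
    rw [(hf.cht i).right b2, hAp] at k2
    rw [hAp]
    exact k2
  -- the patched map
  obtain ⟨fs, hfs⟩ : ∃ fs : E n → W, fs = fun y => ∑ o ∈ t, Xo χ o (A i1 y) •
      go G A B R r o (A i1 y) := ⟨_, rfl⟩
  have z5' : ∀ᶠ y in 𝓝 p, (∑ o ∈ t, Xo χ o (A i1 y) = 1) ∧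
      ∑ o ∈ t, Xo χ o (A i1 y) • go G A B R r o (A i1 y) =
        Gr G A B R χ r (A i1 y) := by
    rw [← hAp] at z5
    filter_upwards [hAc.eventually z5] with y hy
    refine ⟨hy.1, ?_⟩
    rw [hG]
    exact hy.2 r
  have hsm : ∀ᶠ y in 𝓝 p, ∀ o ∈ t, ContDiffAt ℝ ∞ (fun y => Xo χ o (A i1 y)) y ∧
      ContDiffAt ℝ ∞ (fun y => go G A B R r o (A i1 y)) y := by
    have w1 : ∀ᶠ y : E n in 𝓝 p, ‖y‖ < R i1 :=
      (isOpen_lt continuous_norm continuous_const).mem_nhds hpR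
    have w2 : ∀ᶠ y in 𝓝 p, ∀ i ∈ I, ‖y - B i1 x0‖ < ρ i := by
      refine (Finset.eventually_all I).2 fun i hi => ?_
      have : Continuous fun q : E n => ‖q - B i1 x0‖ := by fun_prop
      exact (isOpen_lt this continuous_const).mem_nhds (z1 i hi)
    have w3 : ∀ᶠ y in 𝓝 p, x0 ∈ V → ∀ᶠ y' in 𝓝 y, A i1 y' ∈ V := by
      by_cases h : x0 ∈ V
      · have h2 := z8 h
        rw [← hAp] at h2
        filter_upwards [(hAc.eventually h2).eventually_nhds] with y hy _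
        exact hy
      · exact Eventually.of_forall fun y h' => absurd h' h
    filter_upwards [w1, w2, w3] with y y1 y2 y3
    intro o ho
    refine ⟨hf.Xo_contDiffAt o y1.le, ?_⟩
    rcases ht o ho with ⟨rfl, hg⟩ | ⟨i, hi, rfl⟩
    · have h2 : ContDiffAt ℝ ∞ (fun y => Fb (A i1 y)) y := by
        have h3 : ContMDiffAt (𝓡 n) 𝓘(ℝ, W) ∞ (Fb ∘ A i1) y :=
          (hf.smV _ (y3 hg).self_of_nhds).comp _ ((hf.cht i1).ld y y1.le).contMDiffAt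
        exact contMDiffAt_iff_contDiffAt.1 h3
      refine h2.congr_of_eventuallyEq ?_
      filter_upwards [y3 hg] with y' hy'
      show G (A i1 y') = _
      rw [← hGe, hf.Feq r zS _ hy']
    · have hiF : IntegrableOn (fun w => G (A i w)) (closedBall 0 (R i)) := by
        rw [hG]; exact hf.iF i r zS
      exact (Ml_smooth hiF z0).contDiffAt.comp y
        ((hρ i hi) y (y2 i hi)).2.2.1.contDiffAt
  have hsmp := hsm.self_of_nhds
  have hfsm : ∀ᶠ y in 𝓝 p, ContDiffAt ℝ ∞ fs y := by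
    filter_upwards [hsm] with y hy
    rw [hfs]
    exact ContDiffAt.sum fun o ho => (hy o ho).1.smul (hy o ho).2
  -- the good points
  have hnn : ∀ u : E n, ‖u‖ = 1 → ∀ ℓ : W →L[ℝ] ℝ,
      (∀ q, ‖q - p‖ ≤ κ i1 ^ 2 * r → |ℓ (G (A i1 q)) - ℓ (G (A i1 p))| ≤ Hr * r) →
      (∀ q q', ‖q - p‖ ≤ κ i1 ^ 2 * r → ‖q' - p‖ ≤ κ i1 ^ 2 * r → ∀ t : ℝ, 0 ≤ t →
        ‖q' - q - t • u‖ ≤ r / Hr → t - ε i1 * r ≤ ℓ (G (A i1 q')) - ℓ (G (A i1 q))) →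
      x0 ∈ V → 1 / 2 ≤ ℓ (fderiv ℝ (fun y => go G A B R r none (A i1 y)) p u) := by
    intro u hu ℓ hℓ1 hℓ2 hg
    obtain ⟨c1, c2, c4, c3⟩ := hρn hg
    have hpn : ‖p - B i1 x0‖ < ρn := by linarith
    have hqn : ∀ q, ‖q - p‖ ≤ r → ‖q - B i1 x0‖ < ρn := by
      intro q hq
      calc ‖q - B i1 x0‖ = ‖(q - p) + (p - B i1 x0)‖ := by congr 1; abel
        _ ≤ ‖q - p‖ + ‖p - B i1 x0‖ := norm_add_le _ _
        _ < ρn := by linarith
    have hFq : ∀ q, ‖q - p‖ ≤ r → Fb (A i1 q) = G (A i1 q) := fun q hq => by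
      rw [← hGe, hf.Feq r zS _ (c4 q (hqn q hq))]
    have hFev : (fun y => go G A B R r none (A i1 y)) =ᶠ[𝓝 p]
        fun w => Fb (A i1 w) := by
      have w2 : ∀ᶠ y in 𝓝 p, ‖y - B i1 x0‖ < ρn := by
        have : Continuous fun q : E n => ‖q - B i1 x0‖ := by fun_prop
        exact (isOpen_lt this continuous_const).mem_nhds hpn
      filter_upwards [w2] with y hy
      show G (A i1 y) = _
      rw [← hGe, hf.Feq r zS _ (c4 y hy)]
    have hpp : ‖p - p‖ ≤ r := by simpa using z0.le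
    have hqv : ∀ v : E n, ‖v‖ ≤ 1 → ‖(p + r • v) - p‖ ≤ r := by
      intro v hv
      rw [add_sub_cancel_left, norm_smul, Real.norm_of_nonneg z0.le]
      nlinarith
    have hq1 := hqv u hu.le
    rw [hFev.fderiv_eq]
    refine goodG (h1 := fun w => Fb (A i1 w)) (p := p) (u := u) (r := r) (H := Hr)
      (b := ε i1 * r) (ν := ν) (δ := δ) (C := Cn) (e' := e)
      (ℓ := ℓ) z0 hu (by linarith) hν0
      hCn0 ?_ (c2 p hpn) c1 ?_ ?_ ?_ hνδ (by linarith) (by linarith)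
    · intro v hv
      have h5 := c3 p r hqn _ (hqv v hv)
      have h7 := hqv v hv
      rw [add_sub_cancel_left] at h5 h7
      refine h5.trans ?_
      gcongr
    · intro v hv
      beta_reduce
      rw [hFq _ (hqv v hv), hFq p hpp]
      exact hℓ1 _ ((hqv v hv).trans hκr)
    · beta_reduce
      rw [hFq _ hq1, hFq p hpp]
      refine hℓ2 p (p + r • u) ?_ (hq1.trans hκr) r z0.le ?_
      · rw [sub_self, norm_zero]
        positivity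
      · rw [add_sub_cancel_left, sub_self, norm_zero]
        positivity
    · have := hf.ε4 i1
      gcongr
  refine ⟨z9, hx1, ?_, ?_⟩
  · -- smoothness
    have hsmB : ∀ᶠ x' in 𝓝 x, ContDiffAt ℝ ∞ fs (B i1 x') := by
      have h1 : ContinuousAt (B i1) x := ((hf.cht i1).ldB hx1).continuousAt
      have h2 : Tendsto (B i1) (𝓝 x) (𝓝 p) := by
        have h3 : Tendsto (B i1) (𝓝 x) (𝓝 (B i1 x)) := h1
        rwa [← hp] at h3
      exact h2.eventually hfsm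
    have hmem : ∀ᶠ x' in 𝓝 x, x' ∈ A i1 '' ball 0 (R i1) := (hf.cht i1).isOpen.mem_nhds hx1
    have heq : ∀ᶠ x' in 𝓝 x, fs (B i1 x') = Gr G A B R χ r x' := by
      have h1 : ContinuousAt (B i1) x := ((hf.cht i1).ldB hx1).continuousAt
      have h2 : Tendsto (B i1) (𝓝 x) (𝓝 p) := by
        have h3 : Tendsto (B i1) (𝓝 x) (𝓝 (B i1 x)) := h1
        rwa [← hp] at h3
      filter_upwards [h2.eventually z5', hmem] with x' h3 h4
      rw [hfs]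
      beta_reduce
      rw [h3.2, (hf.cht i1).right h4]
    filter_upwards [hsmB, hmem, heq.eventually_nhds] with x' h1 h2 h3
    have h4 : ContMDiffAt (𝓡 n) 𝓘(ℝ, W) ∞ (fs ∘ B i1) x' :=
      (contMDiffAt_iff_contDiffAt.2 h1).comp x' ((hf.cht i1).ldB h2).contMDiffAt
    refine h4.congr_of_eventuallyEq ?_
    filter_upwards [h3] with x'' h5
    rw [← hG]
    exact h5.symm
  · rintro u ℓ hu ⟨hℓ1, hℓ2⟩
    rw [← hp, ← hG] at hℓ1 hℓ2 ⊢
    have hℓu : ∀ q, ‖q - p‖ ≤ κ i1 ^ 2 * r → |ℓ (G (A i1 q) - G (A i1 p))| ≤ Hr * r := by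
      intro q hq
      rw [map_sub]
      exact hℓ1 q hq
    have hχd : ∀ o ∈ t, DifferentiableAt ℝ (fun y => Xo χ o (A i1 y)) p := fun o ho =>
      (hsmp o ho).1.differentiableAt (by simp)
    have hgd : ∀ o ∈ t, DifferentiableAt ℝ (fun y => go G A B R r o (A i1 y)) p := fun o ho =>
      (hsmp o ho).2.differentiableAt (by simp)
    have hone : (fun z => ∑ o ∈ t, Xo χ o (A i1 z)) =ᶠ[𝓝 p] fun _ => 1 := by
      filter_upwards [z5'] with y hy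
      exact hy.1
    have h1 := patchP t (fun o y => Xo χ o (A i1 y)) (fun o y => go G A B R r o (A i1 y)) p u
      ℓ (G x) (Hr * r) D (1 / 2) hχd hgd (fun o ho => hf.Xo_nn o _) hone
      (by
        intro o ho
        rcases ht o ho with ⟨rfl, hg⟩ | ⟨i, hi, rfl⟩
        · exact hnn u hu ℓ hℓ1 hℓ2 hg
        · exact hest u hu ℓ hℓ2 i hi)
      (by
        intro o ho
        rcases ht o ho with ⟨rfl, hg⟩ | ⟨i, hi, rfl⟩
        · show |ℓ (G (A i1 p) - G x)| ≤ _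
          rw [hAp, sub_self, map_zero, abs_zero]
          positivity
        · exact (hestU u hu ℓ (Hr * r) hℓu i hi).2)
      (fun o _ => z6 o) hu hD0
    rw [← hfs] at h1
    have e1 : (t.card : ℝ) * (D * (Hr * r)) = (t.card * D) * (r * Hr) := by ring
    rw [e1] at h1
    have h2 : (fun y => Gr G A B R χ r (A i1 y)) =ᶠ[𝓝 p] fs := by
      filter_upwards [z5'] with y hy
      rw [hfs]
      exact hy.2.symm
    rw [h2.fderiv_eq]
    linarith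

end

end Pool.Agent.N824.CS
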