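import Pool.Agent.N824.CS.Glob

/-!
# Scalar coarse submersions
-/

set_option autoImplicit false

open Set Filter Topology Metric Function
open scoped Manifold ContDiff

noncomputable section

namespace Pool.Agent.N824.CS

open Pool.Agent.Y522

/-- scalar functions -/
theorem cmu_of {n : ℕ} {h : E n → ℝ} {p u : E n} {κ ε H r m : ℝ} (hu : ‖u‖ = 1) (hm : 0 < m)
    (h1 : ∀ q, ‖q - p‖ ≤ κ ^ 2 * r → |h q - h p| ≤ m * (H * r))
    (h2 : ∀ q q', ‖q - p‖ ≤ κ ^ 2 * r → ‖q' - p‖ ≤ κ ^ 2 * r → ∀ t : ℝ, 0 ≤ t →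
      ‖q' - q - t • u‖ ≤ r / H → m * (t - ε * r) ≤ h q' - h q) (ℓ : ℝ →L[ℝ] ℝ) (hℓ : ℓ ≠ 0) :
    ∃ (c : ℝ) (u : E n), 0 < c ∧ ‖u‖ = 1 ∧ CMu n h p κ ε H r u (c • ℓ) := by
  obtain ⟨a, ha⟩ : ∃ a : ℝ, a = ℓ 1 := ⟨_, rfl⟩
  have hℓy : ∀ y : ℝ, ℓ y = a * y := by
    intro y
    have : ℓ (y • (1 : ℝ)) = y • ℓ 1 := map_smul _ _ _
    rw [smul_eq_mul, mul_one, smul_eq_mul, ← ha] at this
    rw [this, mul_comm]
  have ha0 : a ≠ 0 := by
    intro h
    apply hℓ
    ext
    rw [hℓy, h]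
    simp
  rcases lt_or_gt_of_ne ha0 with ha' | ha'
  · have hk : ∀ y : ℝ, ((1 / (-a * m)) • ℓ) y = -(y / m) := by
      intro y
      rw [smul_apply, hℓy, smul_eq_mul]
      field_simp
    refine ⟨1 / (-a * m), -u, ?_, by rw [norm_neg, hu], ?_, ?_⟩
    · have : 0 < -a := by linarith
      positivity
    · intro q hq
      have h3 := h1 q hq
      have e1 : -(h q / m) - -(h p / m) = -((h q - h p) / m) := by ring
      rw [hk, hk, e1, abs_neg, abs_div, abs_of_pos hm, div_le_iff₀ hm]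
      linarith
    · intro q q' hq hq' t ht hqq
      have h4 : ‖q - q' - t • u‖ ≤ r / H := by
        have e2 : q - q' - t • u = -(q' - q - t • -u) := by
          rw [smul_neg]
          abel
        rw [e2, norm_neg]
        exact hqq
      have h3 := h2 q' q hq' hq t ht h4
      have e1 : -(h q' / m) - -(h q / m) = (h q - h q') / m := by ring
      rw [hk, hk, e1, le_div_iff₀ hm]
      linarith
  · have hk : ∀ y : ℝ, ((1 / (a * m)) • ℓ) y = y / m := by
      intro y
      rw [smul_apply, hℓy, smul_eq_mul]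
      field_simp
    refine ⟨1 / (a * m), u, by positivity, hu, ?_, ?_⟩
    · intro q hq
      have h3 := h1 q hq
      have e1 : h q / m - h p / m = (h q - h p) / m := by ring
      rw [hk, hk, e1, abs_div, abs_of_pos hm, div_le_iff₀ hm]
      linarith
    · intro q q' hq hq' t ht hqq
      have h3 := h2 q q' hq hq' t ht hqq
      have e1 : h q' / m - h q / m = (h q' - h q) / m := by ring
      rw [hk, hk, e1, le_div_iff₀ hm]
      linarith

end Pool.Agent.N824.CS
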